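import Pool.Agent.H39.HW.SStm
import Pool.Agent.H39.HW.SBas

/-! # Project HW, part sCOL: column sums -/

set_option autoImplicit false
open Classical Finset

namespace Pool.Agent.H69.HW

open Pool.Agent.H39.HW Pool.Agent.H39.HW.Sc

theorem t_COL (hBLK : S_BLK) (hCRA : S_CRA) (hCLB : S_CLB) (hCRB : S_CRB) (hCLA : S_CLA)
    (hNUM : S_NUM) (hCTO : S_CTO) (hTOT : S_TOT) (hROW : S_ROW) : S_COL := by
  intro x hx τ β hβ
  have hη := hx.n0
  have hε := hx.e0
  have hηε := hx.n1
  have hηs := hx.eta_le
  have hθ := hx.t0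
  have hμ := hx.m0
  set κ : ℝ := 2 / ((1 - x.η) * x.θ) with hκ
  have h1η : 0 < 1 - x.η := by linarith
  have hκ0 : 0 < κ := by positivity
  -- the final numerical estimate
  have hfin : ∀ S : ℝ, S ≤ (1 / 2 - x.ε / 10 + 250 * x.η) * x.θ → κ * S ≤ 1 - x.ε / 10 := by
    intro S hS
    have h1 : κ * S ≤ κ * ((1 / 2 - x.ε / 10 + 250 * x.η) * x.θ) :=
      mul_le_mul_of_nonneg_left hS hκ0.le
    have h2 : κ * ((1 / 2 - x.ε / 10 + 250 * x.η) * x.θ) = (1 - x.ε / 5 + 500 * x.η) / (1 - x.η) := by
      rw [hκ]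
      field_simp
      ring
    have h3 : (1 - x.ε / 5 + 500 * x.η) / (1 - x.η) ≤ 1 - x.ε / 10 := by
      rw [div_le_iff₀ h1η]
      nlinarith [mul_pos hε hη]
    linarith
  have hDt : ∀ a ∈ x.R, (1 - x.η) * x.θ ≤ x.Dt a := fun a ha => (hx.Dt_bounds hTOT ha).1
  have hDt0 : ∀ a ∈ x.R, 0 < x.Dt a := fun a ha => lt_of_lt_of_le (by positivity) (hDt a ha)
  have hu0 : ∀ a, β ∉ x.cls a → x.u τ a β = 0 := by
    intro a ha
    unfold Prm.u
    rw [if_neg ha]
  have hu1 : ∀ a, β ∈ x.cls a → x.u τ a β = 2 * x.fr τ a β * x.dem a β / x.Dt a := by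
    intro a ha
    unfold Prm.u
    rw [if_pos ha]
  -- a bound by a nonnegative quantity
  have hgen : ∀ a ∈ x.R, ∀ r : ℝ, 0 ≤ r → 2 * r / x.Dt a ≤ κ * r := by
    intro a ha r hr
    rw [div_le_iff₀ (hDt0 a ha), hκ, div_mul_eq_mul_div, div_mul_eq_mul_div, le_div_iff₀ (by positivity)]
    have := mul_le_mul_of_nonneg_left (hDt a ha) (show (0 : ℝ) ≤ 2 * r by positivity)
    linarith
  by_cases hmid : β ∈ x.mid
  · have hfr : ∀ a ∈ x.R, β ∈ x.cls a → 0 ≤ x.fr τ a β * x.dem a β := by
      intro a ha hb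
      have h1 := (hROW x hx a ha τ).1 β
      rw [hu1 a hb] at h1
      have h2 := mul_nonneg h1 (hDt0 a ha).le
      rw [div_mul_cancel₀ _ (hDt0 a ha).ne'] at h2
      linarith
    have hne : ∀ a ∈ x.R, β ∈ x.cls a → a ≠ β := by
      rintro a ha hb rfl
      have h1 : Av x.st x.p a a := by
        have h2 : a ∈ (((range x.B).filter fun b => Av x.st x.p a b).erase (sm x.B a a)) :=
          (mem_sdiff.1 hb).1
        exact (mem_filter.1 (mem_of_mem_erase h2)).2
      have h2 := (hBLK x hx).2.2.1 a
      have h3 := hx.pK'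
      rcases h1 with h1 | h1 <;> omega
    have hpt : ∀ a ∈ x.R, x.u τ a β ≤
        κ * (if a < β ∧ β ∈ x.cls a then x.fr τ a β * x.dem a β else 0) +
        κ * (if β < a ∧ β ∈ x.cls a then x.fr τ a β * x.dem a β else 0) := by
      intro a ha
      by_cases hb : β ∈ x.cls a
      · have h1 : x.u τ a β ≤ κ * (x.fr τ a β * x.dem a β) := by
          rw [hu1 a hb, mul_assoc]
          exact hgen a ha _ (hfr a ha hb)
        rcases lt_or_gt_of_ne (hne a ha hb) with h | h
        · rw [if_pos ⟨h, hb⟩, if_neg (fun h' => by omega), mul_zero, add_zero]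
          exact h1
        · rw [if_neg (fun h' => by omega), if_pos ⟨h, hb⟩, mul_zero, zero_add]
          exact h1
      · rw [hu0 a hb, if_neg (fun h => hb h.2), if_neg (fun h => hb h.2)]
        simp
    have hsum : ∑ a ∈ x.R, x.u τ a β ≤
        κ * (∑ a ∈ x.R.filter (fun a => a < β ∧ β ∈ x.cls a), x.fr τ a β * x.dem a β +
          ∑ a ∈ x.R.filter (fun a => β < a ∧ β ∈ x.cls a), x.fr τ a β * x.dem a β) := by
      refine (Finset.sum_le_sum hpt).trans (le_of_eq ?_)
      rw [Finset.sum_add_distrib, ← Finset.mul_sum, ← Finset.mul_sum, Finset.sum_filter,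
        Finset.sum_filter]
      ring
    refine hsum.trans (hfin _ ?_)
    -- positions
    have hb1 : x.b0 ≤ β ∧ β < x.b1 := by
      have := hmid
      unfold Prm.mid at this
      exact mem_Ico.1 this
    have hb01 : x.b0 + x.M = x.b1 := rfl
    have hb0 : x.b0 = x.K + x.J := rfl
    set y : ℝ := ((β : ℝ) - x.b0) * x.μ with hy
    set z : ℝ := ((x.b1 : ℝ) - β) * x.μ with hz
    have hyz : y + z = x.M * x.μ := by
      have : (x.b1 : ℝ) = x.b0 + x.M := by exact_mod_cast hb01.symm
      rw [hy, hz, this]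
      ring
    have hyz1 : |y + z - 1| ≤ x.η := by rw [hyz]; exact hx.m1
    have hy0 : 0 ≤ y := by
      have : (x.b0 : ℝ) ≤ β := by exact_mod_cast hb1.1
      have h2 : 0 ≤ (β : ℝ) - x.b0 := by linarith
      positivity
    have hz0 : 0 ≤ z := by
      have : (β : ℝ) ≤ x.b1 := by exact_mod_cast hb1.2.le
      have h2 : 0 ≤ (x.b1 : ℝ) - β := by linarith
      positivity
    obtain ⟨hK1, hK2⟩ := hx.Kmu
    obtain ⟨hJ1, hJ2⟩ := hx.Jmu
    have hKg := hx.Kg_le
    have hμs : 2 * x.μ ≤ x.η := by
      have h1 := hx.mu_small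
      have h2 := hx.th_le
      have h3 := hx.etapos
      nlinarith
    have hgK : (x.g : ℝ) + 8 ≤ x.K := by
      have := hx.Kg
      exact_mod_cast (by omega : x.g + 8 ≤ x.K)
    -- the lower side, distance `d` (in blocks) to the end of the middle zone
    have hnum1 : ∀ d : ℝ, 2 * (x.K : ℝ) ≤ d → 2 * x.c - 5 * x.η ≤ d * x.μ := by
      intro d hd
      have := mul_le_mul_of_nonneg_right hd hμ.le
      linarith
    have hnum2 : ∀ d : ℝ, (x.g : ℝ) + 2 ≤ d + x.J → x.c - 5 * x.η ≤ d * x.μ := by
      intro d hd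
      have := mul_le_mul_of_nonneg_right hd hμ.le
      nlinarith
    have hnum3 : ∀ d : ℝ, d ≤ 2 * (x.K : ℝ) → d * x.μ ≤ 2 * x.c + 5 * x.η := by
      intro d hd
      have := mul_le_mul_of_nonneg_right hd hμ.le
      linarith
    have hnum4 : ∀ d : ℝ, d ≤ (x.g : ℝ) + 2 → d * x.μ ≤ x.c + 5 * x.η := by
      intro d hd
      have := mul_le_mul_of_nonneg_right hd hμ.le
      nlinarith
    have hnum5 : ∀ d : ℝ, 2 * (x.g : ℝ) + 2 ≤ d → 2 * x.c - 10 * x.η ≤ d * x.μ := by
      intro d hd
      have := mul_le_mul_of_nonneg_right hd hμ.le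
      nlinarith
    have hlast : ∀ A C : ℝ, A + C ≤ 1 / 2 - x.ε / 10 + 50 * x.η →
        (A + 100 * x.η) * x.θ + (C + 100 * x.η) * x.θ ≤ (1 / 2 - x.ε / 10 + 250 * x.η) * x.θ := by
      intro A C h
      rw [← add_mul]
      exact mul_le_mul_of_nonneg_right (by linarith) hθ.le
    -- casts
    have hc0 : (x.b0 : ℝ) = x.K + x.J := by exact_mod_cast hb0
    cases τ with
    | true =>
      have h1 := hCRA x hx β hmid
      have h2 := hCLA x hx β hmid
      set A : ℝ := (if x.b0 + 2 * x.K ≤ β then G1f x.c (((β : ℝ) - x.b0) * x.μ)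
        else if x.K + x.g + 2 ≤ β then G1n x.c (((β : ℝ) - x.b0) * x.μ) else 0) with hA
      set C : ℝ := (if β + 2 * x.K < x.b1 then G2f x.c (((x.b1 : ℝ) - β) * x.μ)
        else if β + 2 * x.g + 2 ≤ x.b1 then max (G2n x.c (((x.b1 : ℝ) - β) * x.μ))
          (G2m x.c (((x.b1 : ℝ) - β) * x.μ))
        else if β + x.g + 2 ≤ x.b1 + x.J then G2n x.c (((x.b1 : ℝ) - β) * x.μ) else 0) with hC
      have hAC : A + C ≤ 1 / 2 - x.ε / 10 + 50 * x.η := by
        apply hNUM x.ε x.η x.c y z hε hη hηε hx.c1 hx.c2 hyz1 hy0 hz0 A C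
        · by_cases c1 : x.b0 + 2 * x.K ≤ β
          · left
            refine ⟨hnum1 _ ?_, by rw [hA, if_pos c1]⟩
            have : (x.b0 : ℝ) + 2 * x.K ≤ β := by exact_mod_cast c1
            linarith
          · by_cases c2 : x.K + x.g + 2 ≤ β
            · right; left
              refine ⟨hnum2 _ ?_, hnum3 _ ?_, by rw [hA, if_neg c1, if_pos c2]⟩
              · have : (x.K : ℝ) + x.g + 2 ≤ β := by exact_mod_cast c2
                linarith
              · have : (β : ℝ) ≤ x.b0 + 2 * x.K := by exact_mod_cast (by omega : β ≤ x.b0 + 2 * x.K)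
                linarith
            · right; right
              refine ⟨hnum4 _ ?_, by rw [hA, if_neg c1, if_neg c2]⟩
              have : (β : ℝ) ≤ x.b0 + x.g + 2 := by exact_mod_cast (by omega : β ≤ x.b0 + x.g + 2)
              linarith
        · by_cases c1 : β + 2 * x.K < x.b1
          · left
            refine ⟨hnum1 _ ?_, by rw [hC, if_pos c1]⟩
            have : (β : ℝ) + 2 * x.K ≤ x.b1 := by exact_mod_cast c1.le
            linarith
          · have hup : ((x.b1 : ℝ) - β) * x.μ ≤ 2 * x.c + 5 * x.η := by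
              apply hnum3
              have : (x.b1 : ℝ) ≤ β + 2 * x.K := by exact_mod_cast (by omega : x.b1 ≤ β + 2 * x.K)
              linarith
            by_cases c2 : β + 2 * x.g + 2 ≤ x.b1
            · have h3 : (β : ℝ) + 2 * x.g + 2 ≤ x.b1 := by exact_mod_cast c2
              have hg1 : (1 : ℝ) ≤ x.g := by exact_mod_cast hx.g0
              rcases le_total (G2m x.c (((x.b1 : ℝ) - β) * x.μ)) (G2n x.c (((x.b1 : ℝ) - β) * x.μ)) with h | h
              · right; left
                refine ⟨hnum2 _ (by have := hx.J1; have : (1:ℝ) ≤ x.J := by exact_mod_cast this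
                                    linarith), hup, ?_⟩
                rw [hC, if_neg c1, if_pos c2, max_eq_left h]
              · right; right; left
                refine ⟨hnum5 _ (by linarith), hup, ?_⟩
                rw [hC, if_neg c1, if_pos c2, max_eq_right h]
            · by_cases c3 : β + x.g + 2 ≤ x.b1 + x.J
              · right; left
                refine ⟨hnum2 _ ?_, hup, by rw [hC, if_neg c1, if_neg c2, if_pos c3]⟩
                have : (β : ℝ) + x.g + 2 ≤ x.b1 + x.J := by exact_mod_cast c3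
                linarith
              · right; right; right
                refine ⟨hnum4 _ ?_, by rw [hC, if_neg c1, if_neg c2, if_neg c3]⟩
                have : (x.b1 : ℝ) ≤ β + x.g + 2 := by exact_mod_cast (by omega : x.b1 ≤ β + x.g + 2)
                linarith
      exact (add_le_add h1 h2).trans (hlast A C hAC)
    | false =>
      have h1 := hCRB x hx β hmid
      have h2 := hCLB x hx β hmid
      set C : ℝ := (if x.b0 + 2 * x.K ≤ β then G2f x.c (((β : ℝ) - x.b0) * x.μ)
        else if x.b0 + 2 * x.g + 2 ≤ β then max (G2n x.c (((β : ℝ) - x.b0) * x.μ))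
          (G2m x.c (((β : ℝ) - x.b0) * x.μ))
        else if x.K + x.g + 2 ≤ β then G2n x.c (((β : ℝ) - x.b0) * x.μ) else 0) with hC
      set A : ℝ := (if β + 2 * x.K < x.b1 then G1f x.c (((x.b1 : ℝ) - β) * x.μ)
        else if β + x.g + 2 ≤ x.b1 + x.J then G1n x.c (((x.b1 : ℝ) - β) * x.μ) else 0) with hA
      have hzy1 : |z + y - 1| ≤ x.η := by rw [add_comm]; exact hyz1
      have hAC : A + C ≤ 1 / 2 - x.ε / 10 + 50 * x.η := by
        apply hNUM x.ε x.η x.c z y hε hη hηε hx.c1 hx.c2 hzy1 hz0 hy0 A C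
        · by_cases c1 : β + 2 * x.K < x.b1
          · left
            refine ⟨hnum1 _ ?_, by rw [hA, if_pos c1]⟩
            have : (β : ℝ) + 2 * x.K ≤ x.b1 := by exact_mod_cast c1.le
            linarith
          · by_cases c2 : β + x.g + 2 ≤ x.b1 + x.J
            · right; left
              refine ⟨hnum2 _ ?_, hnum3 _ ?_, by rw [hA, if_neg c1, if_pos c2]⟩
              · have : (β : ℝ) + x.g + 2 ≤ x.b1 + x.J := by exact_mod_cast c2
                linarith
              · have : (x.b1 : ℝ) ≤ β + 2 * x.K := by exact_mod_cast (by omega : x.b1 ≤ β + 2 * x.K)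
                linarith
            · right; right
              refine ⟨hnum4 _ ?_, by rw [hA, if_neg c1, if_neg c2]⟩
              have : (x.b1 : ℝ) ≤ β + x.g + 2 := by exact_mod_cast (by omega : x.b1 ≤ β + x.g + 2)
              linarith
        · by_cases c1 : x.b0 + 2 * x.K ≤ β
          · left
            refine ⟨hnum1 _ ?_, by rw [hC, if_pos c1]⟩
            have : (x.b0 : ℝ) + 2 * x.K ≤ β := by exact_mod_cast c1
            linarith
          · have hup : ((β : ℝ) - x.b0) * x.μ ≤ 2 * x.c + 5 * x.η := by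
              apply hnum3
              have : (β : ℝ) ≤ x.b0 + 2 * x.K := by exact_mod_cast (by omega : β ≤ x.b0 + 2 * x.K)
              linarith
            by_cases c2 : x.b0 + 2 * x.g + 2 ≤ β
            · have h3 : (x.b0 : ℝ) + 2 * x.g + 2 ≤ β := by exact_mod_cast c2
              have hg1 : (1 : ℝ) ≤ x.g := by exact_mod_cast hx.g0
              rcases le_total (G2m x.c (((β : ℝ) - x.b0) * x.μ)) (G2n x.c (((β : ℝ) - x.b0) * x.μ)) with h | h
              · right; left
                refine ⟨hnum2 _ (by have := hx.J1; have : (1:ℝ) ≤ x.J := by exact_mod_cast this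
                                    linarith), hup, ?_⟩
                rw [hC, if_neg c1, if_pos c2, max_eq_left h]
              · right; right; left
                refine ⟨hnum5 _ (by linarith), hup, ?_⟩
                rw [hC, if_neg c1, if_pos c2, max_eq_right h]
            · by_cases c3 : x.K + x.g + 2 ≤ β
              · right; left
                refine ⟨hnum2 _ ?_, hup, by rw [hC, if_neg c1, if_neg c2, if_pos c3]⟩
                have : (x.K : ℝ) + x.g + 2 ≤ β := by exact_mod_cast c3
                linarith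
              · right; right; right
                refine ⟨hnum4 _ ?_, by rw [hC, if_neg c1, if_neg c2, if_neg c3]⟩
                have : (β : ℝ) ≤ x.b0 + x.g + 2 := by exact_mod_cast (by omega : β ≤ x.b0 + x.g + 2)
                linarith
      refine (add_le_add h1 h2).trans ?_
      rw [add_comm]
      exact hlast A C hAC
  · -- top and bottom zone
    have h1 := hCTO x hx β hβ hmid
    have hdem : ∀ a ∈ x.R, β ∈ x.cls a → 0 ≤ x.dem a β ∧ x.u τ a β ≤ κ * x.dem a β := by
      intro a ha hb
      have h2 := (hROW x hx a ha τ).2.2.2.2.1 β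
      rw [if_pos hb] at h2
      have h3 := (hROW x hx a ha true).1 β
      have h4 := (hROW x hx a ha false).1 β
      have h5 : 0 ≤ 2 * x.dem a β / x.Dt a := by linarith
      have h6 : 0 ≤ x.dem a β := by
        have h7 := mul_nonneg h5 (hDt0 a ha).le
        rw [div_mul_cancel₀ _ (hDt0 a ha).ne'] at h7
        linarith
      refine ⟨h6, ?_⟩
      have h8 := hgen a ha _ h6
      cases τ <;> linarith
    have hsum : ∑ a ∈ x.R, x.u τ a β ≤ κ * ∑ a ∈ x.R.filter (fun a => β ∈ x.cls a), x.dem a β := by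
      rw [Finset.mul_sum, Finset.sum_filter]
      apply Finset.sum_le_sum
      intro a ha
      by_cases hb : β ∈ x.cls a
      · rw [if_pos hb]
        exact (hdem a ha hb).2
      · rw [if_neg hb, hu0 a hb]
    refine hsum.trans (hfin _ (h1.trans ?_))
    apply mul_le_mul_of_nonneg_right _ hθ.le
    linarith

end Pool.Agent.H69.HW
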