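import Pool.Agent.H39.HW.SStm
import Pool.Agent.H39.HW.SBas

/-! # Project HW, part sVE: free cells -/

set_option autoImplicit false
open Classical Finset

namespace Pool.Agent.H69.HW

open Pool.Agent.H39.HW Pool.Agent.H39.HW.Sc

theorem t_VE (hKKR : S_KKR) : S_VE := by
  intro x hx φ hφ s β hβ τ
  have hh := hx.hge
  have ht := hx.t1
  have hε := hx.e0
  have hθ := hx.t0
  have hBx : β < x.B := hβ
  change x.ε * x.θ / 200 ≤ x.θ / (2 * x.h * x.t) * ((range (2 * x.h * x.t)).filter fun y =>
    decide (y / x.t < x.h) = τ ∧ β ∉ x.F (y / x.t) ∧ ∀ a ∈ x.R, φ y a ≠ β).card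
  -- the good parts
  set G : Finset ℕ := (range (2 * x.h)).filter fun P => decide (P < x.h) = τ ∧ β ∉ x.F P with hG
  have hGcard : x.h ≤ G.card + 3 := by
    set T : Finset ℕ := (range (2 * x.h)).filter fun P => decide (P < x.h) = τ with hT
    have hTcard : T.card = x.h := by
      cases τ with
      | true =>
        have : T = range x.h := by
          ext P
          rw [hT, mem_filter, mem_range, mem_range, decide_eq_true_eq]
          constructor
          · exact fun h => h.2
          · exact fun h => ⟨by omega, h⟩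
        rw [this, card_range]
      | false =>
        have : T = Ico x.h (2 * x.h) := by
          ext P
          rw [hT, mem_filter, mem_range, mem_Ico, decide_eq_false_iff_not, not_lt]
          exact and_comm
        rw [this, Nat.card_Ico]
        omega
    set i := (β - x.b0) % x.L with hi
    have hsub : T ⊆ G ∪ {i / (2 * x.h), i % (2 * x.h), i - 4 * x.h ^ 2} := by
      intro P hP
      rw [mem_union]
      by_cases hF : β ∈ x.F P
      · right
        have h1 : x.resv P i := (mem_filter.1 hF).2
        rcases h1 with ⟨-, h1 | h1⟩ | h1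
        · simp [h1]
        · simp [h1]
        · have : P = i - 4 * x.h ^ 2 := by omega
          simp [this]
      · left
        rw [hT, mem_filter] at hP
        rw [hG, mem_filter]
        exact ⟨hP.1, hP.2, hF⟩
    have h1 := card_le_card hsub
    have h2 := card_union_le G {i / (2 * x.h), i % (2 * x.h), i - 4 * x.h ^ 2}
    have h3 : ({i / (2 * x.h), i % (2 * x.h), i - 4 * x.h ^ 2} : Finset ℕ).card ≤ 3 := card_le_three
    omega
  -- cells
  set Y : Finset ℕ := (range (2 * x.h * x.t)).filter fun y =>
    decide (y / x.t < x.h) = τ ∧ β ∉ x.F (y / x.t) ∧ ∀ a ∈ x.R, φ y a ≠ β with hY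
  have hpart : ∀ P ∈ G, x.ε / 25 * x.t ≤ ((Y.filter fun y => y / x.t = P).card : ℝ) := by
    intro P hP
    rw [hG, mem_filter, mem_range] at hP
    have hall : ((range (2 * x.h * x.t)).filter fun y => y / x.t = P).card = x.t := by
      have : ((range (2 * x.h * x.t)).filter fun y => y / x.t = P) = Ico (P * x.t) (P * x.t + x.t) := by
        ext y
        rw [mem_filter, mem_range, mem_Ico]
        constructor
        · rintro ⟨-, h2⟩
          subst h2
          have h3 := Nat.div_add_mod y x.t
          have h4 := Nat.mod_lt y (by omega : x.t > 0)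
          rw [mul_comm] at h3
          constructor <;> omega
        · rintro ⟨h1, h2⟩
          have h3 : y / x.t = P := by
            apply Nat.div_eq_of_lt_le h1
            rw [add_mul, one_mul]
            exact h2
          refine ⟨?_, h3⟩
          have h4 : (P + 1) * x.t ≤ 2 * x.h * x.t := Nat.mul_le_mul_right _ (by omega)
          rw [add_mul, one_mul] at h4
          omega
      rw [this, Nat.card_Ico]
      omega
    have hcov : ((range (2 * x.h * x.t)).filter fun y => y / x.t = P) ⊆
        (Y.filter fun y => y / x.t = P) ∪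
        x.R.biUnion fun a => (range (2 * x.h * x.t)).filter fun y => y / x.t = P ∧ φ y a = β := by
      intro y hy
      rw [mem_filter] at hy
      rw [mem_union]
      by_cases h : ∀ a ∈ x.R, φ y a ≠ β
      · left
        rw [mem_filter, hY, mem_filter]
        refine ⟨⟨hy.1, ?_, ?_, h⟩, hy.2⟩
        · rw [hy.2]; exact hP.2.1
        · rw [hy.2]; exact hP.2.2
      · right
        push Not at h
        obtain ⟨a, ha, hb⟩ := h
        rw [mem_biUnion]
        exact ⟨a, ha, mem_filter.2 ⟨hy.1, hy.2, hb⟩⟩
    have h1 := (card_le_card hcov).trans ((card_union_le _ _).trans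
      (Nat.add_le_add_left card_biUnion_le _))
    rw [hall] at h1
    have h2 : ∑ a ∈ x.R, ((range (2 * x.h * x.t)).filter fun y => y / x.t = P ∧ φ y a = β).card =
        ∑ a ∈ x.R, x.kk P a β := by
      apply Finset.sum_congr rfl
      intro a ha
      exact hφ.2 P hP.1 a ha β
    rw [h2] at h1
    have h3 := (hKKR x hx P hP.1).2 β hBx
    have h4 : (x.t : ℝ) ≤ ((Y.filter fun y => y / x.t = P).card : ℝ) + ∑ a ∈ x.R, (x.kk P a β : ℝ) := by
      exact_mod_cast h1
    have h5 : (1 - x.ε / 25) * (x.t : ℝ) = x.t - x.ε / 25 * x.t := by ring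
    linarith
  have hYcard : (G.card : ℝ) * (x.ε / 25 * x.t) ≤ (Y.card : ℝ) := by
    have h1 : ∑ P ∈ G, (Y.filter fun y => y / x.t = P).card ≤ Y.card := by
      rw [← card_biUnion]
      · apply card_le_card
        intro y hy
        rw [mem_biUnion] at hy
        obtain ⟨P, -, hP⟩ := hy
        exact (mem_filter.1 hP).1
      · intro P _ Q _ hPQ
        rw [Function.onFun, disjoint_left]
        intro y hy hy'
        rw [mem_filter] at hy hy'
        exact hPQ (hy.2.symm.trans hy'.2)
    have h2 : (∑ P ∈ G, ((Y.filter fun y => y / x.t = P).card : ℝ)) ≤ Y.card := by exact_mod_cast h1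
    refine le_trans ?_ h2
    rw [← nsmul_eq_mul]
    exact Finset.card_nsmul_le_sum _ _ _ hpart
  have hhr : (10000 : ℝ) ≤ x.h := by exact_mod_cast hh
  have htr : (1 : ℝ) ≤ x.t := by exact_mod_cast ht
  have hGr : (x.h : ℝ) / 2 ≤ G.card := by
    have : (x.h : ℝ) ≤ G.card + 3 := by exact_mod_cast hGcard
    linarith
  have h1 : (x.h : ℝ) / 2 * (x.ε / 25 * x.t) ≤ Y.card :=
    (mul_le_mul_of_nonneg_right hGr (by positivity)).trans hYcard
  have h2 : x.θ / (2 * x.h * x.t) * ((x.h : ℝ) / 2 * (x.ε / 25 * x.t)) = x.ε * x.θ / 100 := by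
    field_simp
    ring
  have h3 : x.θ / (2 * x.h * x.t) * ((x.h : ℝ) / 2 * (x.ε / 25 * x.t)) ≤
      x.θ / (2 * x.h * x.t) * Y.card := mul_le_mul_of_nonneg_left h1 (by positivity)
  have h4 : 0 < x.ε * x.θ := mul_pos hε hθ
  refine le_trans ?_ h3
  rw [h2]
  linarith

end Pool.Agent.H69.HW
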