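import Pool.Agent.H65.HW.Tools
import Pool.Agent.H31.HV.Sel

/-! # Project HW, part PRT: random partition with prescribed densities -/

set_option autoImplicit false
open Classical Finset

namespace Pool.Agent.H69.HW

open Pool.Agent.H21.HV Pool.Agent.H65.HW

/-- integer sizes -/
lemma prt_sizes (n R : ℕ) (hn : 1 ≤ n) (q : Fin n → ℝ) (hq : ∀ i, 0 ≤ q i) (hs : ∑ i, q i = 1) :
    ∃ a : Fin n → ℕ, ∑ i, a i = R ∧ ∀ i, |(a i : ℝ) - q i * R| ≤ n := by
  set i0 : Fin n := ⟨0, hn⟩ with hi0
  have hfl : ∀ i, (⌊q i * R⌋₊ : ℝ) ≤ q i * R := fun i => Nat.floor_le (mul_nonneg (hq i) (by positivity))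
  have hfl' : ∀ i, q i * R - ⌊q i * R⌋₊ ≤ 1 := fun i => by
    have := Nat.lt_floor_add_one (q i * R)
    linarith
  have hsum : (∑ i ∈ univ.erase i0, (⌊q i * R⌋₊ : ℝ)) ≤ (1 - q i0) * R := by
    have h1 : ∑ i ∈ univ.erase i0, q i = 1 - q i0 := by
      rw [← hs, ← Finset.sum_erase_add _ _ (mem_univ i0)]; ring
    rw [← h1, Finset.sum_mul]
    exact Finset.sum_le_sum fun i _ => hfl i
  have hle : ∑ i ∈ univ.erase i0, ⌊q i * R⌋₊ ≤ R := by
    have h1 : (∑ i ∈ univ.erase i0, (⌊q i * R⌋₊ : ℝ)) ≤ R := by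
      refine hsum.trans ?_
      have := mul_nonneg (hq i0) (Nat.cast_nonneg R (α := ℝ))
      linarith
    exact_mod_cast h1
  refine ⟨fun i => if i = i0 then R - ∑ i ∈ univ.erase i0, ⌊q i * R⌋₊ else ⌊q i * R⌋₊, ?_, ?_⟩
  · rw [← Finset.sum_erase_add _ _ (mem_univ i0), if_pos rfl]
    have h1 : ∑ x ∈ univ.erase i0, (if x = i0 then R - ∑ i ∈ univ.erase i0, ⌊q i * R⌋₊ else ⌊q x * R⌋₊) =
        ∑ x ∈ univ.erase i0, ⌊q x * R⌋₊ := by
      apply Finset.sum_congr rfl
      intro x hx
      rw [if_neg (Finset.ne_of_mem_erase hx)]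
    rw [h1]
    omega
  · intro i
    by_cases hi : i = i0
    · simp only [if_pos hi]
      rw [Nat.cast_sub hle, hi]
      push_cast
      have h1 : ∑ i ∈ univ.erase i0, (q i * R - ⌊q i * R⌋₊) ≤ n := by
        calc ∑ i ∈ univ.erase i0, (q i * R - ⌊q i * R⌋₊) ≤ ∑ i ∈ univ.erase i0, (1 : ℝ) :=
              Finset.sum_le_sum fun i _ => hfl' i
          _ = ((univ.erase i0).card : ℝ) := by simp
          _ ≤ n := by
            have : (univ.erase i0).card ≤ n := by
              calc (univ.erase i0).card ≤ (univ : Finset (Fin n)).card := card_le_card (erase_subset _ _)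
                _ = n := by simp
            exact_mod_cast this
      have h2 : ∑ i ∈ univ.erase i0, (q i * R - ⌊q i * R⌋₊) =
          (1 - q i0) * R - ∑ i ∈ univ.erase i0, (⌊q i * R⌋₊ : ℝ) := by
        rw [Finset.sum_sub_distrib, ← Finset.sum_mul]
        have h1 : ∑ i ∈ univ.erase i0, q i = 1 - q i0 := by
          rw [← hs, ← Finset.sum_erase_add _ _ (mem_univ i0)]; ring
        rw [h1]
      rw [h2] at h1
      rw [abs_le]
      have hn0 : (0 : ℝ) ≤ n := by positivity
      constructor <;> linarith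
    · simp only [if_neg hi]
      have hn0 : (1 : ℝ) ≤ n := by exact_mod_cast hn
      rw [abs_le]
      have := hfl i
      have := hfl' i
      constructor <;> linarith

/-- a map with prescribed fibre sizes -/
lemma prt_map (n R : ℕ) (a : Fin n → ℕ) (ha : ∑ i, a i = R) :
    ∃ f : Fin R → Fin n, ∀ i, (univ.filter (fun t => f t = i)).card = a i := by
  subst ha
  refine ⟨fun t => (finSigmaFinEquiv.symm t).1, ?_⟩
  intro i
  have h1 : univ.filter (fun t : Fin (∑ i, a i) => (finSigmaFinEquiv.symm t).1 = i) =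
      (univ : Finset (Fin (a i))).image (fun j => finSigmaFinEquiv ⟨i, j⟩) := by
    ext t
    rw [mem_filter, mem_image]
    constructor
    · rintro ⟨-, h⟩
      obtain ⟨⟨i', j⟩, rfl⟩ := finSigmaFinEquiv.surjective t
      rw [Equiv.symm_apply_apply] at h
      simp only at h
      subst h
      exact ⟨j, mem_univ _, rfl⟩
    · rintro ⟨j, -, rfl⟩
      exact ⟨mem_univ _, by rw [Equiv.symm_apply_apply]⟩
  rw [h1, card_image_of_injective]
  · simp
  · intro j j' h
    have := finSigmaFinEquiv.injective h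
    simpa using this

theorem t_PRT : S_PRT := by
  intro n δ hn hδ
  set R : ℕ := ⌈2 * n / δ⌉₊ + 1 with hR
  have hR1 : 1 ≤ R := by omega
  have hRr : (1 : ℝ) ≤ R := by exact_mod_cast hR1
  have hRpos : (0 : ℝ) < R := by linarith
  have hRn : (n : ℝ) / R ≤ δ / 2 := by
    have h1 : 2 * n / δ ≤ R := by
      rw [hR]
      push_cast
      have := Nat.le_ceil (2 * (n : ℝ) / δ)
      linarith
    rw [div_le_iff₀ hδ] at h1
    rw [div_le_iff₀ hRpos]
    linarith
  obtain ⟨D1, hD1⟩ := Pool.Agent.K1H37.HYC.t_PART R hR1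
  obtain ⟨D2, hD2⟩ := Pool.Agent.H31.HV.logsqrt (δ / (2 * (R : ℝ) ^ 2)) (by positivity)
  refine ⟨D1 + D2 + 2, fun D hD q hq hqs V _ G hdeg => ?_⟩
  have hDr : (2 : ℝ) ≤ D := by exact_mod_cast (by omega : 2 ≤ D)
  have hls := hD2 D (by omega)
  have hD4 : D ≤ D ^ 4 := Nat.le_self_pow (by norm_num) D
  obtain ⟨c, hc⟩ := hD1 D (by omega) V V
    (fun v x => if G.Adj v x then 1 else 0) 1 one_pos
    (by
      intro v x
      by_cases h : G.Adj v x
      · simp [h]
      · simp [h])
    (by
      intro v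
      have h1 : (univ.filter (fun x : V => (if G.Adj v x then (1 : ℝ) else 0) ≠ 0)).card ≤
          nb G univ v := by
        apply card_le_card
        intro x hx
        rw [mem_filter] at hx ⊢
        refine ⟨mem_univ _, ?_⟩
        by_contra h
        exact hx.2 (if_neg h)
      exact (h1.trans (hdeg v).le).trans hD4)
    (by
      intro x
      have h1 : (univ.filter (fun v : V => (if G.Adj v x then (1 : ℝ) else 0) ≠ 0)).card ≤
          nb G univ x := by
        apply card_le_card
        intro v hv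
        rw [mem_filter] at hv ⊢
        refine ⟨mem_univ _, ?_⟩
        by_contra h
        exact hv.2 (if_neg fun h' => h h'.symm)
      exact (h1.trans (hdeg x).le).trans hD4)
  set cell : Fin R → Finset V := fun t => univ.filter (fun x => c x = t) with hcell
  -- upper bound for the cells
  set e : ℝ := δ / (2 * (R : ℝ) ^ 2) * D with he
  have he0 : 0 ≤ e := by positivity
  have hup : ∀ v t, (nb G (cell t) v : ℝ) ≤ D / R + e := by
    intro v t
    have h1 := hc v t
    simp only [Finset.sum_ite, Finset.sum_const_zero, add_zero, Finset.sum_const,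
      nsmul_eq_mul, mul_one, one_mul] at h1
    have h2 : (((univ.filter (fun x => c x = t)).filter (fun x => G.Adj v x)).card : ℝ) = nb G (cell t) v := rfl
    have h3 : ((univ.filter (fun x => G.Adj v x)).card : ℝ) = nb G univ v := rfl
    rw [h2, h3, hdeg v] at h1
    refine h1.trans ?_
    have h5 : Real.sqrt (D : ℝ) ≤ Real.sqrt ((D : ℝ) + 1) := Real.sqrt_le_sqrt (by linarith)
    have hlog : 0 ≤ Real.log D := Real.log_natCast_nonneg D
    have h6 : Real.sqrt (D : ℝ) * Real.log D ≤ Real.sqrt ((D : ℝ) + 1) * Real.log D :=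
      mul_le_mul_of_nonneg_right h5 hlog
    linarith
  -- splitting
  have hsplit : ∀ (f : Fin R → Fin n) (i : Fin n) (v : V),
      nb G (univ.filter (fun u => f (c u) = i)) v = ∑ t ∈ univ.filter (fun t => f t = i), nb G (cell t) v := by
    intro f i v
    unfold nb
    rw [Finset.card_eq_sum_card_fiberwise (f := c) (t := univ.filter (fun t => f t = i))]
    · apply Finset.sum_congr rfl
      intro t ht
      congr 1
      ext x
      simp only [mem_filter, mem_univ, true_and, hcell] at ht ⊢
      constructor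
      · rintro ⟨⟨h1, h2⟩, h3⟩
        exact ⟨h3, h2⟩
      · rintro ⟨h3, h2⟩
        exact ⟨⟨by rw [h3]; exact ht, h2⟩, h3⟩
    · intro x hx
      simp only [coe_filter, mem_filter, mem_univ, true_and, Set.mem_ofPred_eq] at hx ⊢
      exact hx.1
  have htot : ∀ v, ∑ t, (nb G (cell t) v : ℝ) = D := by
    intro v
    have h1 : nb G univ v = ∑ t, nb G (cell t) v := by
      unfold nb
      rw [Finset.card_eq_sum_card_fiberwise (f := c) (t := univ)]
      · apply Finset.sum_congr rfl
        intro t _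
        congr 1
        ext x
        simp only [mem_filter, mem_univ, true_and, hcell]
        exact and_comm
      · intro x _
        simp
    rw [hdeg v] at h1
    have h2 : (D : ℝ) = ((∑ t, nb G (cell t) v : ℕ) : ℝ) := by exact_mod_cast h1
    rw [h2]
    push_cast
    rfl
  have hlow : ∀ v t, (D : ℝ) / R - R * e ≤ nb G (cell t) v := by
    intro v t
    have h1 := htot v
    rw [← Finset.sum_erase_add _ _ (mem_univ t)] at h1
    have h2 : ∑ x ∈ univ.erase t, (nb G (cell x) v : ℝ) ≤ ((univ.erase t).card : ℝ) * (D / R + e) := by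
      calc ∑ x ∈ univ.erase t, (nb G (cell x) v : ℝ) ≤ ∑ x ∈ univ.erase t, ((D : ℝ) / R + e) :=
            Finset.sum_le_sum fun x _ => hup v x
        _ = _ := by rw [Finset.sum_const, nsmul_eq_mul]
    have h3 : ((univ.erase t).card : ℝ) = R - 1 := by
      rw [card_erase_of_mem (mem_univ t), card_univ, Fintype.card_fin, Nat.cast_sub hR1, Nat.cast_one]
    rw [h3] at h2
    have h4 : ((R : ℝ) - 1) * (D / R + e) = D - D / R + (R - 1) * e := by
      field_simp
    nlinarith
  obtain ⟨a, ha, ha'⟩ := prt_sizes n R hn q hq hqs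
  obtain ⟨f, hf⟩ := prt_map n R a ha
  refine ⟨fun v => f (c v), ?_⟩
  intro v i
  rw [hsplit f i v]
  push_cast
  have hcardR : (a i : ℝ) ≤ R := by
    have : a i ≤ R := by
      rw [← ha]
      exact Finset.single_le_sum (fun _ _ => Nat.zero_le _) (mem_univ i)
    exact_mod_cast this
  have hRe : (R : ℝ) * e = δ * D / (2 * R) := by
    rw [he]
    field_simp
  have h1 : |∑ t ∈ univ.filter (fun t => f t = i), (nb G (cell t) v : ℝ) - a i * (D / R)| ≤ a i * (R * e) := by
    have h2 : (a i : ℝ) * (D / R) = ∑ t ∈ univ.filter (fun t => f t = i), ((D : ℝ) / R) := by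
      rw [Finset.sum_const, nsmul_eq_mul, hf i]
    have h3 : (a i : ℝ) * (R * e) = ∑ t ∈ univ.filter (fun t => f t = i), ((R : ℝ) * e) := by
      rw [Finset.sum_const, nsmul_eq_mul, hf i]
    rw [h2, h3, ← Finset.sum_sub_distrib]
    refine (Finset.abs_sum_le_sum_abs _ _).trans (Finset.sum_le_sum fun t _ => ?_)
    rw [abs_le]
    have := hup v t
    have := hlow v t
    have : e ≤ R * e := by nlinarith
    constructor <;> linarith
  have h2 : (a i : ℝ) * (R * e) ≤ δ * D / 2 := by
    calc (a i : ℝ) * (R * e) ≤ R * (R * e) := mul_le_mul_of_nonneg_right hcardR (by positivity)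
      _ = δ * D / 2 := by
        rw [hRe]
        field_simp
  have h3 : |(a i : ℝ) * (D / R) - q i * D| ≤ δ * D / 2 := by
    have h4 : (a i : ℝ) * (D / R) - q i * D = (a i - q i * R) * (D / R) := by
      field_simp
    rw [h4, abs_mul, abs_of_nonneg (by positivity : (0 : ℝ) ≤ (D : ℝ) / R)]
    calc |(a i : ℝ) - q i * R| * (D / R) ≤ n * (D / R) :=
          mul_le_mul_of_nonneg_right (ha' i) (by positivity)
      _ = n / R * D := by ring
      _ ≤ δ / 2 * D := mul_le_mul_of_nonneg_right hRn (by positivity)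
      _ = δ * D / 2 := by ring
  calc |∑ t ∈ univ.filter (fun t => f t = i), (nb G (cell t) v : ℝ) - q i * D|
      = |(∑ t ∈ univ.filter (fun t => f t = i), (nb G (cell t) v : ℝ) - a i * (D / R)) +
        ((a i : ℝ) * (D / R) - q i * D)| := by congr 1; ring
    _ ≤ _ := abs_add_le _ _
    _ ≤ a i * (R * e) + δ * D / 2 := add_le_add h1 h3
    _ ≤ δ * D := by linarith

end Pool.Agent.H69.HW
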