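import Pool.Agent.H65.HW.Tools

/-! # Project HW, part EQU: equitable edge colourings of bipartite graphs -/

set_option autoImplicit false
open Classical Finset

namespace Pool.Agent.H69.HW

open Pool.Agent.H21.HV Pool.Agent.H65.HW

/-- enumeration of a finite set -/
lemma equ_pos {V : Type} (S : Finset V) : ∃ pos : V → ℕ, (∀ u ∈ S, pos u < S.card) ∧
    ∀ u ∈ S, ∀ u' ∈ S, pos u = pos u' → u = u' := by
  refine ⟨fun u => if h : u ∈ S then (S.equivFin ⟨u, h⟩ : ℕ) else 0, ?_, ?_⟩
  · intro u hu
    simp only [dif_pos hu]
    exact (S.equivFin ⟨u, hu⟩).2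
  · intro u hu u' hu' h
    simp only [dif_pos hu, dif_pos hu'] at h
    have := S.equivFin.injective (Fin.ext h)
    exact congrArg Subtype.val this

theorem t_EQU (hK : S_KOE) : S_EQU := by
  intro V _ Γ P Q n hB hn
  choose pos hpos1 hpos2 using fun v : V => equ_pos (univ.filter (fun u => Γ.Adj v u))
  have hlt : ∀ v u, Γ.Adj v u → pos v u < nb Γ univ v := by
    intro v u h
    exact hpos1 v u (by simp [h])
  have hinj : ∀ v u u', Γ.Adj v u → Γ.Adj v u' → pos v u = pos v u' → u = u' := by
    intro v u u' h h' he
    exact hpos2 v u (by simp [h]) u' (by simp [h']) he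
  set M : ℕ := Fintype.card V + 1 with hM
  have hnbM : ∀ v, nb Γ univ v ≤ Fintype.card V := by
    intro v
    exact card_le_univ _
  have hdivM : ∀ v u, Γ.Adj v u → pos v u / n < M := by
    intro v u h
    have h1 := hlt v u h
    have h2 := hnbM v
    have h3 : pos v u / n ≤ pos v u := Nat.div_le_self _ _
    omega
  -- the split graph
  set Γ' : SimpleGraph (V × Fin M) :=
    { Adj := fun x y => Γ.Adj x.1 y.1 ∧ (x.2 : ℕ) = pos x.1 y.1 / n ∧ (y.2 : ℕ) = pos y.1 x.1 / n
      symm := ⟨fun x y h => ⟨h.1.symm, h.2.2, h.2.1⟩⟩
      loopless := ⟨fun x h => Γ.loopless.irrefl _ h.1⟩ } with hΓ'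
  have hAdj : ∀ x y, Γ'.Adj x y ↔ Γ.Adj x.1 y.1 ∧ (x.2 : ℕ) = pos x.1 y.1 / n ∧
      (y.2 : ℕ) = pos y.1 x.1 / n := fun x y => Iff.rfl
  have hB' : Bip Γ' (P ×ˢ univ) (Q ×ˢ univ) := by
    constructor
    · rw [Finset.disjoint_left]
      intro x hx hy
      rw [mem_product] at hx hy
      exact disjoint_left.1 hB.1 hx.1 hy.1
    · intro x y h
      rw [hAdj] at h
      rcases hB.2 _ _ h.1 with h1 | h1
      · left; simp [h1.1, h1.2]
      · right; simp [h1.1, h1.2]
  have hdeg : ∀ x, nb Γ' univ x ≤ n := by
    rintro ⟨v, a⟩
    calc nb Γ' univ (v, a)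
        ≤ (Finset.Ico ((a : ℕ) * n) ((a : ℕ) * n + n)).card := by
          unfold nb
          apply Finset.card_le_card_of_injOn (fun y => pos v y.1)
          · intro y hy
            simp only [coe_filter, mem_univ, true_and, Set.mem_ofPred_eq] at hy
            rw [hAdj] at hy
            simp only at hy
            rw [coe_Ico, Set.mem_Ico]
            change (a : ℕ) * n ≤ pos v y.1 ∧ pos v y.1 < (a : ℕ) * n + n
            have h1 := Nat.div_add_mod (pos v y.1) n
            have h2 := Nat.mod_lt (pos v y.1) (by omega : n > 0)
            rw [← hy.2.1, mul_comm] at h1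
            constructor
            · linarith [Nat.zero_le (pos v y.1 % n)]
            · linarith
          · intro y hy y' hy' he
            simp only [coe_filter, mem_univ, true_and, Set.mem_ofPred_eq] at hy hy'
            rw [hAdj] at hy hy'
            simp only at hy hy' he
            have h1 : y.1 = y'.1 := hinj v _ _ hy.1 hy'.1 he
            ext
            · rw [h1]
            · rw [hy.2.2, hy'.2.2, h1]
      _ = n := by simp
  obtain ⟨c', hc1, hc2, hc3⟩ := hK (V × Fin M) Γ' (P ×ˢ univ) (Q ×ˢ univ) n hB' hdeg
  -- the copy
  set cp : V → V → V × Fin M := fun u v => (u, ⟨(pos u v / n) % M, Nat.mod_lt _ (by omega)⟩) with hcp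
  have hcpv : ∀ u v, Γ.Adj u v → ((cp u v).2 : ℕ) = pos u v / n := by
    intro u v h
    simp only [hcp]
    exact Nat.mod_eq_of_lt (hdivM u v h)
  have hcpA : ∀ u v, Γ.Adj u v → Γ'.Adj (cp u v) (cp v u) := by
    intro u v h
    rw [hAdj]
    exact ⟨h, hcpv u v h, hcpv v u h.symm⟩
  set c : V → V → ℕ := fun u v => c' (cp u v) (cp v u) with hc
  -- two edges in the same cell have different colours
  have hdiff : ∀ v u u', Γ.Adj v u → Γ.Adj v u' → pos v u / n = pos v u' / n → c v u = c v u' →
      u = u' := by
    intro v u u' h h' he hcc
    by_contra hne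
    have h1 : cp v u = cp v u' := by
      ext
      · rfl
      · rw [hcpv v u h, hcpv v u' h', he]
    have h2 := hcpA v u h
    have h3 := hcpA v u' h'
    rw [← h1] at h3
    refine hc3 _ _ _ h2 h3 ?_ ?_
    · intro h4
      exact hne (congrArg Prod.fst h4)
    · simp only [hc] at hcc
      rw [← h1] at hcc
      exact hcc
  refine ⟨c, ?_, ?_, ?_⟩
  · intro u v
    exact hc1 _ _
  · intro u v h
    exact hc2 _ _ (hcpA u v h)
  · intro v i hi
    constructor
    · -- lower bound
      have hex : ∀ a ∈ range (nb Γ univ v / n), ∃ u, Γ.Adj v u ∧ pos v u / n = a ∧ c v u = i := by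
        intro a ha
        rw [mem_range] at ha
        set U : Finset V := univ.filter (fun u => Γ.Adj v u ∧ pos v u / n = a) with hU
        have hUm : ∀ u, u ∈ U ↔ Γ.Adj v u ∧ pos v u / n = a := by
          intro u; rw [hU]; simp
        have himgall : (univ.filter (fun u => Γ.Adj v u)).image (pos v) = range (nb Γ univ v) := by
          apply Finset.eq_of_subset_of_card_le
          · intro k hk
            obtain ⟨u, hu, rfl⟩ := mem_image.1 hk
            rw [mem_range]
            exact hlt v u (by simpa using hu)
          · rw [card_range, card_image_of_injOn]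
            · exact le_of_eq rfl
            · intro u hu u' hu' he
              exact hinj v u u' (by simpa using hu) (by simpa using hu') he
        have hUcard : n ≤ U.card := by
          have h1 : Finset.Ico (a * n) (a * n + n) ⊆ U.image (pos v) := by
            intro k hk
            rw [mem_Ico] at hk
            have h2 : k ∈ range (nb Γ univ v) := by
              rw [mem_range]
              have h3 : (a + 1) * n ≤ nb Γ univ v :=
                (Nat.mul_le_mul_right n (by omega : a + 1 ≤ nb Γ univ v / n)).trans
                  (Nat.div_mul_le_self _ _)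
              have : (a + 1) * n = a * n + n := by ring
              omega
            rw [← himgall, mem_image] at h2
            obtain ⟨u, hu, rfl⟩ := h2
            rw [mem_image]
            refine ⟨u, ?_, rfl⟩
            rw [hUm]
            refine ⟨by simpa using hu, ?_⟩
            apply Nat.div_eq_of_lt_le
            · exact hk.1
            · have : (a + 1) * n = a * n + n := by ring
              omega
          have h2 := (card_le_card h1).trans card_image_le
          simpa using h2
        have h2 : U.image (fun u => c v u) = range n := by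
          apply Finset.eq_of_subset_of_card_le
          · intro k hk
            obtain ⟨u, hu, rfl⟩ := mem_image.1 hk
            rw [mem_range]
            exact hc2 _ _ (hcpA v u ((hUm u).1 hu).1)
          · rw [card_range, card_image_of_injOn]
            · exact hUcard
            · intro u hu u' hu' he
              have hu1 := (hUm u).1 hu
              have hu2 := (hUm u').1 hu'
              exact hdiff v u u' hu1.1 hu2.1 (by rw [hu1.2, hu2.2]) he
        have h3 : i ∈ U.image (fun u => c v u) := by rw [h2, mem_range]; exact hi
        obtain ⟨u, hu, hui⟩ := mem_image.1 h3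
        exact ⟨u, ((hUm u).1 hu).1, ((hUm u).1 hu).2, hui⟩
      have : Nonempty V := ⟨v⟩
      choose! g hg using hex
      calc nb Γ univ v / n = (range (nb Γ univ v / n)).card := (card_range _).symm
        _ ≤ _ := by
          apply Finset.card_le_card_of_injOn g
          · intro a ha
            have := hg a ha
            simp only [coe_filter, mem_univ, true_and, Set.mem_ofPred_eq]
            exact ⟨this.1, this.2.2⟩
          · intro a ha a' ha' he
            have h1 := (hg a ha).2.1
            have h2 := (hg a' ha').2.1
            rw [← h1, ← h2, he]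
    · -- upper bound
      calc (univ.filter (fun u => Γ.Adj v u ∧ c v u = i)).card
          ≤ (range ((nb Γ univ v + n - 1) / n)).card := by
            apply Finset.card_le_card_of_injOn (fun u => pos v u / n)
            · intro u hu
              simp only [coe_filter, mem_univ, true_and, Set.mem_ofPred_eq] at hu
              rw [coe_range, Set.mem_Iio]
              change pos v u / n < (nb Γ univ v + n - 1) / n
              have h1 := hlt v u hu.1
              have h2 : pos v u / n + 1 = (pos v u + n) / n := (Nat.add_div_right _ (by omega)).symm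
              have h3 : (pos v u + n) / n ≤ (nb Γ univ v + n - 1) / n := Nat.div_le_div_right (by omega)
              omega
            · intro u hu u' hu' he
              simp only [coe_filter, mem_univ, true_and, Set.mem_ofPred_eq] at hu hu' he
              exact hdiff v u u' hu.1 hu'.1 he (by rw [hu.2, hu'.2])
        _ = _ := card_range _

end Pool.Agent.H69.HW
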